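import Pool.Agent.X40.PQB

/-!
`p ∣ B(p q^b)` for all primes `p < q` and all `b ≥ 1`.

Method: a product of distinct `Φ_d`, `d ∣ p q^b`, is `G(x) P(x^q)` with `G ∣ x^(pq) - 1` and `P` a product
of `Φ_d`, `d ∣ p q^(b-1)`, `q ∣ d`. In every residue class modulo `q` the absolute values of the
coefficients of `G` have a sum at most `p`, so the height is at most `p H(P)`; for `G = Φ_p Φ_q` it is
equal to `p H(P)`. Hence `B(p q^b)` is `p` times the largest height of the polynomials `P`.
-/

set_option autoImplicit false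

open Pool.Agent.X40 in
/-- For all primes `p < q` and every `b ≥ 1` the largest height of a divisor of `X ^ (p q ^ b) - 1` in
`ℤ[X]` is divisible by `p`. -/
theorem Pool.Agent.Results.MP_b384de_nt.DivisibleByP.result (p q b : ℕ) (hp : p.Prime) (hq : q.Prime)
    (hpq : p < q) (hb : 1 ≤ b) : p ∣ B (p * q ^ b) := by
  obtain ⟨c, rfl⟩ : ∃ c, b = c + 1 := ⟨b - 1, by omega⟩
  exact ⟨_, B_eq hp hq hpq c⟩
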